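import Pool.Agent.H75.NM4

set_option autoImplicit false

open MultiplierAlgebra Pool.Agent.H75.NM in
theorem Pool.Agent.Results.MP_86e2e0_an.Yes.result :
    ∃ (A : Type) (_ : NonUnitalCStarAlgebra A), Nontrivial A ∧
      (∀ J : TwoSidedIdeal A, IsClosed (J : Set A) → J = ⊥ ∨ J = ⊤) ∧
      TopologicalSpace.SeparableSpace A ∧ (¬ ∃ u : A, ∀ a, u * a = a ∧ a * u = a) ∧
      ∃ I : TwoSidedIdeal (DoubleCentralizer ℂ A),
        IsClosed (I : Set (DoubleCentralizer ℂ A)) ∧ I ≠ ⊤ ∧ Nonmeagre I :=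
  main
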